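import Pool.Agent.Lib.MP_775b3b_nt.YD5
import Pool.Agent.Lib.MP_775b3b_nt.S4Rep
import Pool.Agent.Lib.MP_775b3b_nt.LowDeg

namespace Pool.Agent.Lib.MP_775b3b_nt.Old.ArtinZero

open Pool.Agent.Lib.MP_775b3b_nt

/-- Let `F / ℚ` be Galois of odd discriminant with group `G`, let `P` be a 2-subgroup of index one
or three, `τ ∈ P` with `τ^2 = 1` in no other conjugate of `P`, and `ε = ± 1`.  For a positive
proportion of the curves `y^2 = x^3 + A x + B` ordered by height, the following irreducible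
representations do not occur in `ℂ ⊗ E(F)`: those with a vector `w ≠ 0` and an element `a` of the
integral group ring of odd augmentation such that `τ` acts by `ε` on `a p w` for all `p ∈ P`. -/
theorem result (F : Type) [Field F] [NumberField F] [DecidableEq F] [IsGalois ℚ F]
    (hodd : Odd (NumberField.discr F)) (P : Subgroup (F ≃ₐ[ℚ] F)) (h2 : IsPGroup 2 P)
    (h3 : P.index ∣ 3) (τ : F ≃ₐ[ℚ] F) (hτ : τ ∈ P) (hτ2 : τ * τ = 1)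
    (hP : ∀ g : F ≃ₐ[ℚ] F, g * τ * g⁻¹ ∈ P → ∀ p ∈ P, g * p * g⁻¹ ∈ P) (ε : ℤˣ) :
    ∃ c : ℝ, 0 < c ∧ ∃ X₀ : ℝ, ∀ X : ℝ, X₀ ≤ X → ∀ S : Finset (ℤ × ℤ),
      (∀ e : ℤ × ℤ, e ∈ S ↔ 4 * e.1 ^ 3 + 27 * e.2 ^ 2 ≠ 0 ∧
        (∀ p : ℕ, p.Prime → ¬ ((p : ℤ) ^ 4 ∣ e.1 ∧ (p : ℤ) ^ 6 ∣ e.2)) ∧
        ((max (4 * |e.1| ^ 3) (27 * e.2 ^ 2) : ℤ) : ℝ) < X) →
      c * S.card ≤ {e : ℤ × ℤ | e ∈ S ∧ ∀ (W : Type) [AddCommGroup W] [Module ℂ W]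
        (ρ : Representation ℂ (F ≃ₐ[ℚ] F) W), ρ.IsIrreducible →
        (∃ (w : W) (a : (F ≃ₐ[ℚ] F) → ℤ), w ≠ 0 ∧ Odd (∑ g, a g) ∧ ∀ p ∈ P,
          ρ τ (∑ g, (a g : ℂ) • ρ (g * p) w) = ((ε : ℤ) : ℂ) • ∑ g, (a g : ℂ) • ρ (g * p) w) →
        ∀ T : W →ₗ[ℂ] TensorProduct ℤ ℂ (WeierstrassCurve.Affine.baseChange
            (⟨0, 0, 0, (e.1 : ℚ), (e.2 : ℚ)⟩ : WeierstrassCurve ℚ).toAffine F).Point,
          (∀ (g : F ≃ₐ[ℚ] F) (w : W), T (ρ g w) = LinearMap.baseChange ℂ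
            (WeierstrassCurve.Affine.Point.map (g : F →ₐ[ℚ] F)).toIntLinearMap (T w)) →
          T = 0}.ncard := by
  classical
  obtain ⟨m, c, T₀, hc, h⟩ := many_ann hodd P h2 h3 hτ hτ2 hP ε
  obtain ⟨c', hc', X₀, hX⟩ := density (fun e => Ann (act e) P τ ε) hc h
  refine ⟨c', hc', X₀, fun X h1 S hS => (hX X h1 S hS).trans (Nat.cast_le.2 ?_)⟩
  rw [← Set.ncard_coe_finset]
  refine Set.ncard_le_ncard (fun e he => ?_) (S.finite_toSet.subset fun e he => he.1)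
  simp only [Finset.coe_filter, Set.mem_ofPred_eq] at he
  obtain ⟨h4, h5⟩ := he
  exact ⟨h4, fun W _ _ ρ hρ ⟨w, a, h0, ha, hw⟩ T hT => h5.eq_zero hρ h0 ha hw hT⟩

/-- Special case: if the Galois group acts faithfully on a set `L` of at most four letters, every
irreducible representation `ρ` has multiplicity zero in `ℂ ⊗ E(F)` for a positive proportion of
the curves. -/
theorem quartic (F : Type) [Field F] [NumberField F] [DecidableEq F] [IsGalois ℚ F]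
    (hodd : Odd (NumberField.discr F)) (L : Finset ℤ) (hL : L.card ≤ 4)
    (φ : (F ≃ₐ[ℚ] F) →* (L ≃ L)) (hφ : ∀ g h, φ g = φ h → g = h)
    (W : Type) [AddCommGroup W] [Module ℂ W]
    (ρ : Representation ℂ (F ≃ₐ[ℚ] F) W) (hρ : ρ.IsIrreducible) :
    ∃ c : ℝ, 0 < c ∧ ∃ X₀ : ℝ, ∀ X : ℝ, X₀ ≤ X → ∀ S : Finset (ℤ × ℤ),
      (∀ e : ℤ × ℤ, e ∈ S ↔ 4 * e.1 ^ 3 + 27 * e.2 ^ 2 ≠ 0 ∧
        (∀ p : ℕ, p.Prime → ¬ ((p : ℤ) ^ 4 ∣ e.1 ∧ (p : ℤ) ^ 6 ∣ e.2)) ∧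
        ((max (4 * |e.1| ^ 3) (27 * e.2 ^ 2) : ℤ) : ℝ) < X) →
      c * S.card ≤ {e : ℤ × ℤ | e ∈ S ∧
        ∀ T : W →ₗ[ℂ] TensorProduct ℤ ℂ (WeierstrassCurve.Affine.baseChange
            (⟨0, 0, 0, (e.1 : ℚ), (e.2 : ℚ)⟩ : WeierstrassCurve ℚ).toAffine F).Point,
          (∀ (g : F ≃ₐ[ℚ] F) (w : W), T (ρ g w) = LinearMap.baseChange ℂ
            (WeierstrassCurve.Affine.Point.map (g : F →ₐ[ℚ] F)).toIntLinearMap (T w)) →
          T = 0}.ncard := by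
  classical
  obtain ⟨ι⟩ : Nonempty (L ↪ Fin 4) := Function.Embedding.nonempty_of_card_le (by simpa using hL)
  obtain ⟨P, τ, ε, w, h2, h3, hτ, hτ2, hP, h0, hw⟩ := S4.data_irr ρ hρ
    ((Equiv.Perm.viaEmbeddingHom ι).comp φ) ((Equiv.Perm.viaEmbeddingHom_injective ι).comp hφ)
  obtain ⟨c, hc, X₀, h⟩ := result F hodd P h2 h3 τ hτ hτ2 hP ε
  refine ⟨c, hc, X₀, fun X h1 S hS => (h X h1 S hS).trans (Nat.cast_le.2 ?_)⟩
  exact Set.ncard_le_ncard (fun e he => ⟨he.1, he.2 W ρ hρ ⟨w, Pi.single 1 1, h0, by simp,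
    fun p hp => by rw [S4.sum_single, hw p hp]⟩⟩) (S.finite_toSet.subset fun e he => he.1)

/-- Special case: if the number field `K` of odd discriminant is spanned over `ℚ` by a set `B` of
at most four elements, a positive proportion of the curves have finitely many points over `K`. -/
theorem lowDegree (K : Type) [Field K] [NumberField K] (hodd : Odd (NumberField.discr K))
    (B : Finset K) (hB : B.card ≤ 4) (hK : ∀ x : K, ∃ a : K → ℚ, x = ∑ y ∈ B, a y • y) :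
    ∃ c : ℝ, 0 < c ∧ ∃ X₀ : ℝ, ∀ X : ℝ, X₀ ≤ X → ∀ S : Finset (ℤ × ℤ),
      (∀ e : ℤ × ℤ, e ∈ S ↔ 4 * e.1 ^ 3 + 27 * e.2 ^ 2 ≠ 0 ∧
        (∀ p : ℕ, p.Prime → ¬ ((p : ℤ) ^ 4 ∣ e.1 ∧ (p : ℤ) ^ 6 ∣ e.2)) ∧
        ((max (4 * |e.1| ^ 3) (27 * e.2 ^ 2) : ℤ) : ℝ) < X) →
      c * S.card ≤ {e : ℤ × ℤ | e ∈ S ∧ ∃ T : Finset
        (⟨0, 0, 0, (e.1 : K), (e.2 : K)⟩ : WeierstrassCurve K).toAffine.Point,
          ∀ R, R ∈ T}.ncard := by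
  have h4 : Module.finrank ℚ K ≤ 4 := by
    have h1 : Submodule.span ℚ (B : Set K) = ⊤ := eq_top_iff.2 fun x _ => by
      obtain ⟨a, rfl⟩ := hK x
      exact Submodule.sum_mem _ fun y hy => Submodule.smul_mem _ _ (Submodule.subset_span hy)
    rw [← finrank_top, ← h1]
    exact (finrank_span_finset_le_card B).trans hB
  obtain ⟨c, hc, X₀, h⟩ := LowDeg.finite_of_degree_le_four K h4 hodd
  refine ⟨c, hc, X₀, fun X h1 S hS => (h X h1 S hS).trans (Nat.cast_le.2 ?_)⟩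
  refine Set.ncard_le_ncard (fun e he => ⟨he.1, ?_⟩) (S.finite_toSet.subset fun e he => he.1)
  have := he.2
  exact ⟨(Set.finite_univ).toFinset, fun R => by simp⟩

end Pool.Agent.Lib.MP_775b3b_nt.Old.ArtinZero
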