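import Mathlib
import Pool.Agent.Lib.MP_775b3b_nt.TF.Top

set_option autoImplicit false

namespace Pool.Agent.Lib.MP_775b3b_nt.Old.TwistFamily

open Polynomial Filter Pool.Agent.Lib.MP_03e5d0_nt.FF Pool.Agent.Lib.MP_775b3b_nt.TF

/-- Let `F` be finite of odd order, `A`, `B`, `A - B` of the same positive degree, `N d` squarefree
for `N = A B (A - B)`, `L / F(t)` finite Galois with a square root `δ` of `d`, and `ρ` the
one-dimensional representation given by the action on `δ`.  Among the `D` of degree `n` with `N D`
squarefree, the proportion of those obeying the following rule tends to one: either the twist by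
`D d` has sign `1` and analytic rank zero and `ρ` does not occur in the points over `L` of the twist
by `D`, or the sign is `-1`, the analytic rank is one and `ρ` occurs at most once. -/
theorem result (F : Type) [Field F] [Fintype F] (hq : Odd (Fintype.card F)) (A B : F[X])
    (hA : 0 < A.natDegree) (hB : B.natDegree = A.natDegree)
    (hC : (A - B).natDegree = A.natDegree) (d : F[X]) (hd : Squarefree (A * B * (A - B) * d))
    (L : Type) [Field L] [DecidableEq L] [Algebra (RatFunc F) L]
    [FiniteDimensional (RatFunc F) L] [IsGalois (RatFunc F) L]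
    (δ : L) (hδ : δ ^ 2 = algebraMap (RatFunc F) L (algebraMap F[X] (RatFunc F) d))
    (V : Type) [AddCommGroup V] [Module ℂ V] (ρ : Representation ℂ (L ≃ₐ[RatFunc F] L) V)
    (hV : Module.finrank ℂ V = 1)
    (hρ : ∀ g : L ≃ₐ[RatFunc F] L, (g δ = δ ∧ ρ g = 1) ∨ (g δ = -δ ∧ ρ g = -1)) :
    Tendsto (fun n : ℕ =>
      (({D : F[X] | D.natDegree = n ∧ Squarefree (A * B * (A - B) * D) ∧
        ((HasSign (Lfun (twist A B (D * d))) 1 ∧ HasAnRank (twist A B (D * d)) 0 ∧
            mult ρ (twist A B D) = 0) ∨
          (HasSign (Lfun (twist A B (D * d))) (-1) ∧ HasAnRank (twist A B (D * d)) 1 ∧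
            mult ρ (twist A B D) ≤ 1))}.ncard : ℝ)) /
      ({D : F[X] | D.natDegree = n ∧ Squarefree (A * B * (A - B) * D)}.ncard : ℝ))
      atTop (nhds 1) :=
  family hq hA hB hC hd hδ ρ hV hρ

end Pool.Agent.Lib.MP_775b3b_nt.Old.TwistFamily
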